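import Pool.Agent.Helper38.RS.Goals3

/-!
# Project RS (MP_fc6b1e_nt), packet RS-REP: representatives of the ideal classes
-/

set_option autoImplicit false

namespace Pool.Agent.Helper3.RS

open NumberField nonZeroDivisors

/-- Every ideal class contains a nonzero ideal coprime to a given nonzero ideal. -/
lemma exists_coprime_rep {R : Type} [CommRing R] [IsDedekindDomain R] (m : Ideal R) (hm : m ≠ ⊥)
    (C : ClassGroup R) :
    ∃ (I : (Ideal R)⁰), ClassGroup.mk0 I = C ∧ (I : Ideal R) ≠ ⊥ ∧ (I : Ideal R) ⊔ m = ⊤ := by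
  obtain ⟨J, hJ⟩ := ClassGroup.mk0_surjective C⁻¹
  have hJ0 : (J : Ideal R) ≠ ⊥ := mem_nonZeroDivisors_iff_ne_zero.mp J.2
  obtain ⟨a, ha⟩ := IsDedekindDomain.exists_sup_span_eq
    (I := (J : Ideal R) * m) (J := (J : Ideal R)) Ideal.mul_le_left
    (mul_ne_zero hJ0 hm)
  by_cases h0 : a = 0
  · subst h0
    have h1 : (J : Ideal R) * m = (J : Ideal R) * ⊤ := by
      rw [Ideal.mul_top]; simpa using ha
    have h2 : m = ⊤ := mul_left_cancel₀ hJ0 h1
    obtain ⟨I, hI⟩ := ClassGroup.mk0_surjective C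
    exact ⟨I, hI, mem_nonZeroDivisors_iff_ne_zero.mp I.2, by rw [h2]; simp⟩
  · have haJ : Ideal.span {a} ≤ (J : Ideal R) := by
      rw [← ha]; exact le_sup_right
    obtain ⟨c, hc⟩ := Ideal.dvd_iff_le.mpr haJ
    have hc0 : c ≠ ⊥ := by
      rintro rfl
      rw [Ideal.mul_bot] at hc
      exact h0 (Ideal.span_singleton_eq_bot.mp hc)
    have hsup : c ⊔ m = ⊤ := by
      have h1 : (J : Ideal R) * (c ⊔ m) = (J : Ideal R) * ⊤ := by
        rw [Ideal.mul_sup, Ideal.mul_top, ← hc, sup_comm]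
        exact ha
      exact mul_left_cancel₀ hJ0 h1
    refine ⟨⟨c, mem_nonZeroDivisors_iff_ne_zero.mpr hc0⟩, ?_, hc0, hsup⟩
    have hprod : ClassGroup.mk0 (J * ⟨c, mem_nonZeroDivisors_iff_ne_zero.mpr hc0⟩ : (Ideal R)⁰) = 1 := by
      rw [ClassGroup.mk0_eq_one_iff]
      change ((J : Ideal R) * c).IsPrincipal
      rw [← hc]
      exact ⟨⟨a, rfl⟩⟩
    rw [map_mul, hJ] at hprod
    exact (eq_inv_of_mul_eq_one_right hprod).trans (inv_inv C)

theorem s_rep : Pool.Agent.Helper38.RS.S_REP := by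
  intro F _ _ m hm
  classical
  choose I hI hI0 hIm using exists_coprime_rep m hm
  refine ⟨Fintype.card (ClassGroup (𝓞 F)), fun j ↦ (I ((Fintype.equivFin _).symm j) : Ideal (𝓞 F)),
    fun j ↦ ⟨hI0 _, hIm _⟩, fun J hJ ↦ ?_⟩
  have hJm : J ∈ (Ideal (𝓞 F))⁰ := mem_nonZeroDivisors_iff_ne_zero.mpr hJ
  have key : ∀ C : ClassGroup (𝓞 F), (J * (I C : Ideal (𝓞 F))).IsPrincipal ↔
      C = (ClassGroup.mk0 (⟨J, hJm⟩ : (Ideal (𝓞 F))⁰))⁻¹ := by
    intro C
    have h1 : ClassGroup.mk0 ((⟨J, hJm⟩ : (Ideal (𝓞 F))⁰) * I C) = 1 ↔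
        (J * (I C : Ideal (𝓞 F))).IsPrincipal := by
      rw [ClassGroup.mk0_eq_one_iff]
      rfl
    rw [← h1, map_mul, hI C]
    constructor
    · intro h
      exact eq_inv_of_mul_eq_one_right h
    · rintro rfl
      exact mul_inv_cancel _
  refine ⟨Fintype.equivFin _ (ClassGroup.mk0 (⟨J, hJm⟩ : (Ideal (𝓞 F))⁰))⁻¹, ?_, ?_⟩
  · simp only [Equiv.symm_apply_apply]
    exact (key _).mpr rfl
  · intro j hj
    rw [key] at hj
    rw [← hj]; simp

end Pool.Agent.Helper3.RS
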