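import Pool.Agent.Helper10.RS.Goals

/-!
# Frobenius: the p'-part of the order divides the number of p-regular elements (packet FROB)
-/

set_option autoImplicit false

open Finset

namespace Pool.Agent.Helper3.RS

open Pool.Agent.Helper10.RS

universe u

section
variable {G : Type u} [Group G]

/-- number of p-regular elements commuting with `x` -/
noncomputable def rc (p : ℕ) (x : G) : ℕ := Nat.card {y : G // Commute x y ∧ ¬ p ∣ orderOf y}

theorem rc_eq_reg (p : ℕ) (x : G) : rc p x = reg (Subgroup.centralizer {x}) p := by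
  unfold rc reg
  refine Nat.card_congr
    { toFun := fun y => ⟨⟨y.1, ?_⟩, ?_⟩
      invFun := fun y => ⟨y.1.1, ?_, ?_⟩
      left_inv := fun y => rfl
      right_inv := fun y => rfl }
  · rw [Subgroup.mem_centralizer_singleton_iff]
    exact y.2.1.eq.symm
  · rw [Subgroup.orderOf_mk]
    exact y.2.2
  · have h := y.1.2
    rw [Subgroup.mem_centralizer_singleton_iff] at h
    exact h.symm
  · have h := y.2
    rw [← Subgroup.orderOf_coe] at h
    exact h

theorem oc (h y : G) : orderOf (h * y * h⁻¹) = orderOf y := by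
  have := (MulAut.conj h).orderOf_eq y
  rwa [MulAut.conj_apply] at this

theorem rc_conj (p : ℕ) (x h : G) : rc p (h * x * h⁻¹) = rc p x := by
  unfold rc
  refine Nat.card_congr
    { toFun := fun y => ⟨h⁻¹ * y.1 * h, ?_, ?_⟩
      invFun := fun y => ⟨h * y.1 * h⁻¹, ?_, ?_⟩
      left_inv := fun y => by
        apply Subtype.ext
        show h * (h⁻¹ * y.1 * h) * h⁻¹ = y.1
        group
      right_inv := fun y => by
        apply Subtype.ext
        show h⁻¹ * (h * y.1 * h⁻¹) * h = y.1
        group }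
  · have h1 := y.2.1.eq
    show x * (h⁻¹ * y.1 * h) = (h⁻¹ * y.1 * h) * x
    have h2 : h⁻¹ * (h * x * h⁻¹ * y.1) * h = h⁻¹ * (y.1 * (h * x * h⁻¹)) * h := by rw [h1]
    have h3 : h⁻¹ * (h * x * h⁻¹ * y.1) * h = x * (h⁻¹ * y.1 * h) := by group
    have h4 : h⁻¹ * (y.1 * (h * x * h⁻¹)) * h = (h⁻¹ * y.1 * h) * x := by group
    rw [← h3, ← h4, h2]
  · have h1 : orderOf (h⁻¹ * y.1 * h) = orderOf y.1 := by
      have := oc (h⁻¹) y.1
      rwa [inv_inv] at this
    rw [h1]
    exact y.2.2
  · have h1 := y.2.1.eq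
    show (h * x * h⁻¹) * (h * y.1 * h⁻¹) = (h * y.1 * h⁻¹) * (h * x * h⁻¹)
    have h3 : (h * x * h⁻¹) * (h * y.1 * h⁻¹) = h * (x * y.1) * h⁻¹ := by group
    have h4 : (h * y.1 * h⁻¹) * (h * x * h⁻¹) = h * (y.1 * x) * h⁻¹ := by group
    rw [h3, h4, h1]
  · rw [oc h y.1]
    exact y.2.2

theorem card_class [Finite G] (x : G) :
    Nat.card (Subgroup.centralizer {x}) * {y : G | IsConj y x}.ncard = Nat.card G := by
  rw [Subgroup.nat_card_centralizer_nat_card_stabilizer]
  have h1 := MulAction.index_stabilizer (ConjAct G) x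
  have h2 : MulAction.orbit (ConjAct G) x = {y : G | IsConj y x} := by
    ext y
    exact ConjAct.mem_orbit_conjAct
  rw [← h2, ← h1]
  have h3 := (MulAction.stabilizer (ConjAct G) x).card_mul_index
  rw [h3]
  rfl

/-- decomposition into the p-part and the p'-part -/
theorem card_eq [Finite G] {p a m : ℕ} (hp : p.Prime) (hN : p ^ a * m = Nat.card G) (hm : ¬ p ∣ m) :
    Nat.card G = Nat.card (Σ x : {x : G // x ^ (p ^ a) = 1},
      {y : G // Commute x.1 y ∧ ¬ p ∣ orderOf y}) := by
  have hco : Nat.Coprime (p ^ a) m := Nat.Coprime.pow_left a ((Nat.Prime.coprime_iff_not_dvd hp).mpr hm)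
  obtain ⟨e, he1, he0⟩ := Nat.chineseRemainder hco 1 0
  have hme : m ∣ e := (Nat.modEq_zero_iff_dvd).mp he0
  have hreg : ∀ y : G, ¬ p ∣ orderOf y → orderOf y ∣ m := by
    intro y hy
    have h1 : orderOf y ∣ p ^ a * m := by rw [hN]; exact orderOf_dvd_natCard y
    have h2 : Nat.Coprime (orderOf y) (p ^ a) :=
      (Nat.Coprime.pow_left a ((Nat.Prime.coprime_iff_not_dvd hp).mpr hy)).symm
    exact h2.dvd_of_dvd_mul_left h1
  have hpe : ∀ x : G, x ^ (p ^ a) = 1 → x ^ e = x := by
    intro x hx
    have h1 : orderOf x ∣ p ^ a := orderOf_dvd_of_pow_eq_one hx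
    have h2 : e ≡ 1 [MOD orderOf x] := he1.of_dvd h1
    have h3 := pow_eq_pow_iff_modEq.mpr h2
    rwa [pow_one] at h3
  have hye : ∀ y : G, ¬ p ∣ orderOf y → y ^ e = 1 := by
    intro y hy
    exact orderOf_dvd_iff_pow_eq_one.mp ((hreg y hy).trans hme)
  symm
  apply Nat.card_congr
  refine Equiv.ofBijective (fun z => z.1.1 * z.2.1) ⟨?_, ?_⟩
  · rintro ⟨⟨x, hx⟩, ⟨y, hxy, hy⟩⟩ ⟨⟨x', hx'⟩, ⟨y', hxy', hy'⟩⟩ h
    simp only at h hxy hxy'
    have h1 : (x * y) ^ e = x := by
      rw [hxy.mul_pow, hpe x hx, hye y hy, mul_one]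
    have h2 : (x' * y') ^ e = x' := by
      rw [hxy'.mul_pow, hpe x' hx', hye y' hy', mul_one]
    have h3 : x = x' := by rw [← h1, ← h2, h]
    subst h3
    have h4 : y = y' := mul_left_cancel h
    subst h4
    rfl
  · intro g
    have hg : g ^ (p ^ a * m) = 1 := by rw [hN]; exact pow_card_eq_one'
    have hc : Commute (g ^ e) ((g ^ e)⁻¹ * g) := by
      have h1 : Commute (g ^ e) g := (Commute.refl g).pow_left e
      exact ((Commute.refl (g ^ e)).inv_right).mul_right h1
    have hx : (g ^ e) ^ (p ^ a) = 1 := by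
      obtain ⟨f, rfl⟩ := hme
      rw [← pow_mul]
      have : m * f * p ^ a = (p ^ a * m) * f := by ring
      rw [this, pow_mul, hg, one_pow]
    have hy : ((g ^ e)⁻¹ * g) ^ m = 1 := by
      have h1 : Commute (g ^ e)⁻¹ g := ((Commute.refl g).pow_left e).inv_left
      rw [h1.mul_pow, inv_pow, ← pow_mul, inv_mul_eq_one]
      have h2 : e * m ≡ m [MOD p ^ a * m] := by
        have := Nat.ModEq.mul_right' m he1
        simpa using this
      have h3 : e * m ≡ m [MOD orderOf g] := h2.of_dvd (orderOf_dvd_of_pow_eq_one hg)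
      exact pow_eq_pow_iff_modEq.mpr h3
    refine ⟨⟨⟨g ^ e, hx⟩, ⟨(g ^ e)⁻¹ * g, hc, ?_⟩⟩, ?_⟩
    · intro hd
      exact hm (hd.trans (orderOf_dvd_of_pow_eq_one hy))
    · show g ^ e * ((g ^ e)⁻¹ * g) = g
      group

end

theorem frob_aux (p : ℕ) (hp : p.Prime) : ∀ (n : ℕ) (G : Type u) [Group G] [Finite G],
    Nat.card G = n → (ordCompl[p] n) ∣ reg G p := by
  intro n
  induction n using Nat.strong_induction_on with
  | _ n ih =>
  intro G _ _ hn
  classical
  have : Fintype G := Fintype.ofFinite G
  set a := n.factorization p with ha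
  set m := ordCompl[p] n with hm
  have hn0 : n ≠ 0 := by rw [← hn]; exact Nat.card_pos.ne'
  have hN : p ^ a * m = Nat.card G := by
    rw [hn]; exact Nat.ordProj_mul_ordCompl_eq_self n p
  have hpm : ¬ p ∣ m := Nat.not_dvd_ordCompl hp hn0
  have hcard := card_eq (G := G) hp hN hpm
  have hs : Nat.card G = ∑ x ∈ univ.filter (fun x : G => x ^ (p ^ a) = 1), rc p x := by
    rw [hcard, Nat.card_sigma]
    rw [Finset.sum_subtype (univ.filter (fun x : G => x ^ (p ^ a) = 1))
      (p := fun x => x ^ (p ^ a) = 1) (by intro x; simp)]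
    rfl
  rw [← Finset.sum_filter_add_sum_filter_not _ (fun x => x ∈ Subgroup.center G)] at hs
  -- noncentral part
  have hnc : m ∣ ∑ x ∈ (univ.filter (fun x : G => x ^ (p ^ a) = 1)).filter
      (fun x => ¬ x ∈ Subgroup.center G), rc p x := by
    rw [← Finset.sum_fiberwise _ (fun x : G => ConjClasses.mk x)]
    apply Finset.dvd_sum
    intro c _
    by_cases hne : (((univ.filter (fun x : G => x ^ (p ^ a) = 1)).filter
      (fun x => ¬ x ∈ Subgroup.center G)).filter (fun x => ConjClasses.mk x = c)).Nonempty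
    · obtain ⟨g, hg⟩ := hne
      simp only [mem_filter, mem_univ, true_and] at hg
      obtain ⟨⟨hg1, hg2⟩, rfl⟩ := hg
      have hset : (((univ.filter (fun x : G => x ^ (p ^ a) = 1)).filter
          (fun x => ¬ x ∈ Subgroup.center G)).filter (fun x => ConjClasses.mk x = ConjClasses.mk g))
          = univ.filter (fun x : G => IsConj x g) := by
        ext x
        simp only [mem_filter, mem_univ, true_and, ConjClasses.mk_eq_mk_iff_isConj]
        constructor
        · exact fun h => h.2
        · intro h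
          refine ⟨⟨?_, ?_⟩, h⟩
          · obtain ⟨k, hk⟩ := isConj_iff.mp h.symm
            rw [← hk, conj_pow, hg1]
            group
          · intro hx
            apply hg2
            obtain ⟨k, hk⟩ := isConj_iff.mp h
            rw [Subgroup.mem_center_iff] at hx
            have h5 := hx k
            have h6 : g = x := by
              rw [← hk, h5]; group
            rw [h6, Subgroup.mem_center_iff]
            exact hx
      rw [hset]
      have hconst : ∀ x ∈ univ.filter (fun x : G => IsConj x g), rc p x = rc p g := by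
        intro x hx
        simp only [mem_filter, mem_univ, true_and] at hx
        obtain ⟨k, hk⟩ := isConj_iff.mp hx.symm
        rw [← hk, rc_conj]
      rw [Finset.sum_congr rfl hconst, Finset.sum_const, smul_eq_mul]
      have hcc := card_class (G := G) g
      have hnc' : {y : G | IsConj y g}.ncard = (univ.filter (fun x : G => IsConj x g)).card := by
        rw [← Set.ncard_coe_finset]
        congr 1
        ext y
        simp
      rw [hnc'] at hcc
      have hlt : Nat.card (Subgroup.centralizer {g}) < n := by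
        have hle : Nat.card (Subgroup.centralizer {g}) ≤ Nat.card G := Subgroup.card_le_card_group _
        rw [← hn]
        refine lt_of_le_of_ne hle ?_
        intro heq
        have htop : Subgroup.centralizer {g} = ⊤ := Subgroup.eq_top_of_card_eq _ heq
        rw [Subgroup.centralizer_eq_top_iff_subset] at htop
        exact hg2 (htop (Set.mem_singleton g))
      have hih := ih _ hlt (Subgroup.centralizer {g}) rfl
      rw [← rc_eq_reg] at hih
      have hc0 : Nat.card (Subgroup.centralizer {g}) ≠ 0 := Nat.card_pos.ne'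
      have hm2 : m = ordCompl[p] (Nat.card (Subgroup.centralizer {g})) *
          ordCompl[p] ((univ.filter (fun x : G => IsConj x g)).card) := by
        rw [hm, ← hn, ← hcc]
        exact Nat.ordCompl_mul _ _ p
      rw [hm2, mul_comm]
      exact mul_dvd_mul (Nat.ordCompl_dvd _ p) hih
    · rw [Finset.not_nonempty_iff_eq_empty] at hne
      rw [hne]
      simp
  -- central part
  have hcen : ∑ x ∈ (univ.filter (fun x : G => x ^ (p ^ a) = 1)).filter
      (fun x => x ∈ Subgroup.center G), rc p x
      = ((univ.filter (fun x : G => x ^ (p ^ a) = 1)).filter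
      (fun x => x ∈ Subgroup.center G)).card * reg G p := by
    have hconst : ∀ x ∈ (univ.filter (fun x : G => x ^ (p ^ a) = 1)).filter
      (fun x => x ∈ Subgroup.center G), rc p x = reg G p := by
      intro x hx
      simp only [mem_filter, mem_univ, true_and] at hx
      unfold rc reg
      refine Nat.card_congr (Equiv.subtypeEquivRight ?_)
      intro y
      have : Commute x y := (Subgroup.mem_center_iff.mp hx.2 y).symm
      simp [this]
    rw [Finset.sum_congr rfl hconst, Finset.sum_const, smul_eq_mul]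
  -- the central p-elements
  let Z0 : Subgroup G :=
    { carrier := {x | x ^ (p ^ a) = 1 ∧ x ∈ Subgroup.center G}
      mul_mem' := by
        rintro x y ⟨hx, hx'⟩ ⟨hy, hy'⟩
        refine ⟨?_, (Subgroup.center G).mul_mem hx' hy'⟩
        have hc : Commute x y := (Subgroup.mem_center_iff.mp hx' y).symm
        rw [hc.mul_pow, hx, hy, one_mul]
      one_mem' := ⟨one_pow _, (Subgroup.center G).one_mem⟩
      inv_mem' := by
        rintro x ⟨hx, hx'⟩
        refine ⟨?_, (Subgroup.center G).inv_mem hx'⟩
        rw [inv_pow, hx, inv_one] }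
  have hZp : IsPGroup p Z0 := by
    rintro ⟨x, hx, hx'⟩
    exact ⟨a, Subtype.ext hx⟩
  have : Fact p.Prime := ⟨hp⟩
  obtain ⟨k, hk⟩ := IsPGroup.iff_card.mp hZp
  have hZc : ((univ.filter (fun x : G => x ^ (p ^ a) = 1)).filter
      (fun x => x ∈ Subgroup.center G)).card = p ^ k := by
    rw [← hk, Finset.filter_filter]
    have : Nat.card Z0 = Nat.card {x : G // x ^ (p ^ a) = 1 ∧ x ∈ Subgroup.center G} := rfl
    rw [this, Nat.card_eq_fintype_card, Fintype.card_subtype]
  rw [hcen, hZc] at hs
  have hmN : m ∣ Nat.card G := ⟨p ^ a, by rw [mul_comm]; exact hN.symm⟩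
  rw [hs] at hmN
  have h1 : m ∣ p ^ k * reg G p := (Nat.dvd_add_left hnc).mp hmN
  have hco : Nat.Coprime m (p ^ k) :=
    (Nat.Coprime.pow_left k ((Nat.Prime.coprime_iff_not_dvd hp).mpr hpm)).symm
  exact hco.dvd_of_dvd_mul_left h1

/-- packet FROB -/
theorem p_frob : FROB.{u} := by
  intro G _ _ p hp
  exact frob_aux p hp _ G rfl

end Pool.Agent.Helper3.RS
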